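import Pool.Agent.R69.SumFree2

/-!
# `R_{𝔽₂}(2, …, 2, d) ≥ (2 - o(1)) d`, already for two colours
-/

set_option autoImplicit false

namespace Pool.Agent.Results.MP_b5ddc9_co.TwoD

open Pool.Agent.R69.SumFree

/-- All nonzero vectors of the subspace `V` have colour `i` under the colouring `χ` of the nonzero
vectors of `𝔽₂ ^ n`. -/
def Mono {n r : ℕ} (χ : {v : Fin n → ZMod 2 // v ≠ 0} → Fin r)
    (V : Submodule (ZMod 2) (Fin n → ZMod 2)) (i : Fin r) : Prop :=
  ∀ v : {v : Fin n → ZMod 2 // v ≠ 0}, (v : Fin n → ZMod 2) ∈ V → χ v = i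

/-- Every colouring of the nonzero vectors of `𝔽₂ ^ n` with the colours `0, 1, …, r - 1` has a
`2`-dimensional subspace monochromatic in a colour `i` other than the last colour `r - 1`, or a
`d`-dimensional subspace monochromatic in the last colour `r - 1`. -/
def Forces (r d n : ℕ) : Prop :=
  ∀ χ : {v : Fin n → ZMod 2 // v ≠ 0} → Fin r,
    (∃ i : Fin r, (i : ℕ) + 1 ≠ r ∧ ∃ V : Submodule (ZMod 2) (Fin n → ZMod 2),
      Module.finrank (ZMod 2) V = 2 ∧ Mono χ V i) ∨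
    (∃ i : Fin r, (i : ℕ) + 1 = r ∧ ∃ V : Submodule (ZMod 2) (Fin n → ZMod 2),
      Module.finrank (ZMod 2) V = d ∧ Mono χ V i)

/-- `R^{(r)}_{𝔽₂}(2; d)`, the least `n` with the property `Forces r d n`
(with the value `⊤` if there is no such `n`). -/
noncomputable def R (r d : ℕ) : ℕ∞ := ⨅ n ∈ {n : ℕ | Forces r d n}, (n : ℕ∞)

theorem not_forces {r d n : ℕ} (hr : 2 ≤ r)
    (h : ∃ A : Finset (F2 n), 0 ∉ A ∧ (∀ t ⊆ A, ¬ IsTri t) ∧
      ∀ M : Fin d → F2 n, Function.Injective (lin M) → ∃ a : F2 d, a ≠ 0 ∧ lin M a ∈ A) :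
    ¬ Forces r d n := by
  classical
  obtain ⟨A, hA0, hA1, hA2⟩ := h
  intro hF
  rcases hF (fun v => if (v : Fin n → ZMod 2) ∈ A then ⟨0, by omega⟩ else ⟨r - 1, by omega⟩) with
    ⟨i, hi, V, hV, hmono⟩ | ⟨i, hi, V, hV, hmono⟩
  · -- a plane in a colour other than the last one
    let b := Module.finBasisOfFinrankEq (ZMod 2) V hV
    have hmem : ∀ v : V, v ≠ 0 → (v : Fin n → ZMod 2) ∈ A := by
      intro v hv
      have hv' : (v : Fin n → ZMod 2) ≠ 0 := fun h => hv (Subtype.ext h)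
      have h1 := hmono ⟨v, hv'⟩ v.2
      by_contra hcon
      simp only [hcon, if_false] at h1
      apply hi
      rw [← h1]
      simp only
      omega
    have h0 : b 0 ≠ 0 := b.ne_zero 0
    have h1 : b 1 ≠ 0 := b.ne_zero 1
    have h01 : b 0 ≠ b 1 := fun h => by simpa using b.injective h
    have h2 : b 0 + b 1 ≠ 0 := by
      intro h
      apply h01
      have h3 : b 0 + b 1 + b 1 = b 1 := by rw [h, zero_add]
      have h4 : b 1 + b 1 = 0 := Subtype.ext (add_self' (b 1 : F2 n))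
      rw [add_assoc, h4, add_zero] at h3
      exact h3
    refine hA1 {(b 0 : F2 n), (b 1 : F2 n), (b 0 : F2 n) + (b 1 : F2 n)} ?_ ?_
    · intro v hv
      simp only [Finset.mem_insert, Finset.mem_singleton] at hv
      rcases hv with rfl | rfl | rfl
      · exact hmem _ h0
      · exact hmem _ h1
      · exact hmem _ h2
    · refine ⟨(b 0 : F2 n), (b 1 : F2 n), fun h => h0 (Subtype.ext h), fun h => h1 (Subtype.ext h),
        fun h => h01 (Subtype.ext h), rfl⟩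
  · -- a `d`-dimensional subspace in the last colour
    let b := Module.finBasisOfFinrankEq (ZMod 2) V hV
    have hlin : ∀ a : F2 d, lin (fun i => (b i : F2 n)) a = (b.equivFun.symm a : V) := by
      intro a
      rw [b.equivFun_symm_apply]
      simp [lin]
    have hinj : Function.Injective (lin (fun i => (b i : F2 n))) := by
      intro a a' haa
      rw [hlin, hlin] at haa
      exact b.equivFun.symm.injective (Subtype.ext haa)
    obtain ⟨a, ha, haA⟩ := hA2 _ hinj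
    have hne : lin (fun i => (b i : F2 n)) a ≠ 0 := fun h => hA0 (h ▸ haA)
    have hV' : lin (fun i => (b i : F2 n)) a ∈ V := by
      rw [hlin]
      exact (b.equivFun.symm a).2
    have h1 := hmono ⟨_, hne⟩ hV'
    simp only [haA, if_true] at h1
    have h2 := congrArg Fin.val h1
    simp only at h2
    omega

theorem le_R {r : ℕ} (hr : 2 ≤ r) {ε : ℝ} (hε : 0 < ε) :
    ∃ d₀ : ℕ, ∀ d ≥ d₀, ENNReal.ofReal ((2 - ε) * d) ≤ ((R r d : ℕ∞) : ENNReal) := by
  obtain ⟨d₀, hd₀⟩ := exists_set_eventually ε hε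
  refine ⟨d₀, fun d hd => ?_⟩
  have key : ∀ n : ℕ, Forces r d n → (2 - ε) * d ≤ n := by
    intro n hn
    by_contra hcon
    exact not_forces hr (hd₀ d hd n (not_le.1 hcon)) hn
  have h1 : ((R r d : ℕ∞) : ENNReal) = ⨅ n ∈ {n : ℕ | Forces r d n}, ((n : ℕ∞) : ENNReal) := by
    unfold R
    simp only [ENat.toENNReal_iInf]
  rw [h1]
  refine le_iInf₂ fun n hn => ?_
  have h2 := key n hn
  calc ENNReal.ofReal ((2 - ε) * d) ≤ ENNReal.ofReal (n : ℝ) := ENNReal.ofReal_le_ofReal h2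
    _ = ((n : ℕ∞) : ENNReal) := by simp

/-- **Main theorem.** There is an absolute constant `c > 0`, namely `c = 1 / 2`, with
`R^{(1000)}_{𝔽₂}(2; d) ≥ (3 / 2 + c - o(1)) d`. In fact `R^{(r)}_{𝔽₂}(2; d) ≥ (2 - o(1)) d` for every
number `r ≥ 2` of colours, in particular for `r = 2`. -/
theorem result :
    (∃ c : ℝ, 0 < c ∧ ∀ ε : ℝ, 0 < ε → ∃ d₀ : ℕ, ∀ d ≥ d₀,
      ENNReal.ofReal ((3 / 2 + c - ε) * d) ≤ ((R 1000 d : ℕ∞) : ENNReal)) ∧
    (∀ r : ℕ, 2 ≤ r → ∀ ε : ℝ, 0 < ε → ∃ d₀ : ℕ, ∀ d ≥ d₀,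
      ENNReal.ofReal ((2 - ε) * d) ≤ ((R r d : ℕ∞) : ENNReal)) := by
  refine ⟨⟨1 / 2, by norm_num, fun ε hε => ?_⟩, fun r hr ε hε => le_R hr hε⟩
  obtain ⟨d₀, hd₀⟩ := le_R (r := 1000) (by norm_num) hε
  refine ⟨d₀, fun d hd => ?_⟩
  have := hd₀ d hd
  have h2 : (3 / 2 + 1 / 2 - ε : ℝ) = 2 - ε := by ring
  rw [h2]
  exact this

end Pool.Agent.Results.MP_b5ddc9_co.TwoD
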